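import Pool.Agent.H25.NP.Back
import Pool.Agent.H9.NW.Defs

/-!
General circuits on `D` consecutive slices can be made monotone.
-/

set_option linter.unusedSectionVars false

namespace Pool.Agent.H78.WS

open Finset
open Pool.Agent.H25.NP hiding Circuit

section

variable {ι : Type} [Fintype ι] [DecidableEq ι]

/-- The semantics of the windows, if the function is only known to be correct in the window. -/
theorem win_spec' {c : Finset (ι ⊕ ι) → Prop} (hc : ∀ Y Y', Y ⊆ Y' → c Y → c Y')
    {f : Finset ι → Prop} (hf : ∀ X Y, X ⊆ Y → f X → f Y) (a D : ℕ)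
    (hcf : ∀ X : Finset ι, a ≤ X.card → X.card < a + D → (c (lits X) ↔ f X)) :
    ∀ j ≤ D, ∀ (S X : Finset ι), ((X \ S).card < a → ¬ win c j a S X) ∧
      (a + j ≤ (X \ S).card → win c j a S X) ∧
      (a ≤ (X \ S).card → (X \ S).card < a + j → (win c j a S X ↔ f (X \ S))) := by
  intro j
  induction j with
  | zero =>
    intro _ S X
    refine ⟨fun h h' => absurd (show a ≤ (X \ S).card from h') (by omega), fun h => ?_,
      fun h h' => by omega⟩
    exact h
  | succ j ih =>
    intro hjD S X
    have ih := ih (by omega)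
    refine ⟨?_, ?_, ?_⟩
    · rintro h (⟨h1, _⟩ | h1)
      · have : a ≤ (X \ S).card := h1
        omega
      · have : a + (j + 1) ≤ (X \ S).card := h1
        omega
    · intro h
      exact Or.inr h
    · intro h1 h2
      have hthr : ¬ thr S (a + (j + 1)) X := by
        intro h
        have : a + (j + 1) ≤ (X \ S).card := h
        omega
      have hcf' := hcf (X \ S) h1 (by omega)
      have e1 : win c (j + 1) a S X ↔ c (sub S (fun i => win c j a (insert i S)) X) := by
        constructor
        · rintro (⟨_, h⟩ | h)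
          · exact h
          · exact absurd h hthr
        · intro h
          exact Or.inl ⟨h1, h⟩
      rw [e1, ← hcf']
      have hin : ∀ i, i ∉ X \ S → X \ insert i S = X \ S := by
        intro i hi
        ext x
        rw [Finset.mem_sdiff, Finset.mem_sdiff, Finset.mem_insert]
        constructor
        · rintro ⟨h3, h4⟩
          exact ⟨h3, fun h5 => h4 (Or.inr h5)⟩
        · rintro ⟨h3, h4⟩
          refine ⟨h3, ?_⟩
          rintro (rfl | h5)
          · exact hi (Finset.mem_sdiff.2 ⟨h3, h4⟩)
          · exact h4 h5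
      by_cases hfX : f (X \ S)
      · refine ⟨fun _ => hcf'.2 hfX, fun h => ?_⟩
        refine hc _ _ ?_ h
        intro k hk
        rcases k with i | i
        · rw [mem_sub_inl]
          exact mem_lits_inl.1 hk
        · rw [mem_sub_inr]
          have hi := mem_lits_inr.1 hk
          right
          obtain ⟨_, h3, h4⟩ := ih (insert i S) X
          rw [hin i hi] at h3 h4
          by_cases h5 : a + j ≤ (X \ S).card
          · exact h3 h5
          · exact (h4 h1 (by omega)).2 hfX
      · refine ⟨fun h => ?_, fun h => absurd (hcf'.1 h) hfX⟩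
        refine hc _ _ ?_ h
        intro k hk
        rcases k with i | i
        · rw [mem_lits_inl]
          exact mem_sub_inl.1 hk
        · rw [mem_lits_inr]
          rintro hi
          have hiS : i ∉ S := (Finset.mem_sdiff.1 hi).2
          rcases mem_sub_inr.1 hk with h3 | h3
          · exact hiS h3
          · obtain ⟨g1, _, g3⟩ := ih (insert i S) X
            have hsub : X \ insert i S ⊆ X \ S :=
              Finset.sdiff_subset_sdiff (Finset.Subset.refl _) (Finset.subset_insert _ _)
            have hcard : (X \ insert i S).card + 1 = (X \ S).card := by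
              have e2 : X \ insert i S = (X \ S).erase i := by
                ext x
                rw [Finset.mem_sdiff, Finset.mem_erase, Finset.mem_sdiff, Finset.mem_insert]
                tauto
              rw [e2, Finset.card_erase_of_mem hi]
              have : 0 < (X \ S).card := Finset.card_pos.2 ⟨i, hi⟩
              omega
            by_cases h5 : (X \ insert i S).card < a
            · exact g1 h5 h3
            · have h6 := (g3 (by omega) (by omega)).1 h3
              exact hfX (hf _ _ hsub h6)

end

open Pool.Agent.H9.NW (Circuit)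

variable {n s : ℕ}

/-- The value of a gate. -/
def val (C : Circuit n s) (G : SimpleGraph (Fin n)) (i : Fin s) : Prop :=
  C.Proof G Finset.univ i

theorem val_leaf (C : Circuit n s) {i : Fin s} (hi : i ∈ C.leaf) (G : SimpleGraph (Fin n)) :
    val C G i ↔ C.test i G := by
  constructor
  · intro h
    cases h with
    | leaf _ h2 _ => exact h2
    | conj h1 _ _ => exact absurd hi h1
    | disj h1 _ _ _ => exact absurd hi h1
  · intro h
    exact Circuit.Proof.leaf hi h fun e _ => Or.inr (Finset.mem_univ _)

theorem val_conj (C : Circuit n s) {i : Fin s} (hi : i ∉ C.leaf) (hi' : i ∈ C.conj)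
    (G : SimpleGraph (Fin n)) : val C G i ↔ ∀ j ∈ C.ins i, val C G j := by
  constructor
  · intro h
    cases h with
    | leaf h1 _ _ => exact absurd h1 hi
    | conj _ _ h3 => exact h3
    | disj _ h2 _ _ => exact absurd hi' h2
  · intro h
    exact Circuit.Proof.conj hi hi' h

theorem val_disj (C : Circuit n s) {i : Fin s} (hi : i ∉ C.leaf) (hi' : i ∉ C.conj)
    (G : SimpleGraph (Fin n)) : val C G i ↔ ∃ j ∈ C.ins i, val C G j := by
  constructor
  · intro h
    cases h with
    | leaf h1 _ _ => exact absurd h1 hi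
    | conj _ h2 _ => exact absurd h2 hi'
    | disj _ _ h3 h4 => exact ⟨_, h3, h4⟩
  · rintro ⟨j, hj, h⟩
    exact Circuit.Proof.disj hi hi' hj h

/-- Circuits whose tests read at most one pair are programs over the literals. -/
theorem toProg (C : Circuit n s) (h1 : ∀ i ∈ C.leaf, (C.reads i).card ≤ 1) :
    ∀ m ≤ s, ∃ l, NProg (Inp (Edge n ⊕ Edge n)) l 0 ∧ l.length ≤ m ∧
      ∀ i : Fin s, i.1 < m → ∃ p ∈ l, ∀ X, p (lits X) ↔ val C (ofSet X) i := by
  classical
  intro m
  induction m with
  | zero =>
    intro _
    exact ⟨[], NProg.nil, by simp, fun i hi => absurd hi (Nat.not_lt_zero _)⟩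
  | succ m ih =>
    intro hm
    obtain ⟨l, g1, g2, g3⟩ := ih (by omega)
    set i₀ : Fin s := ⟨m, by omega⟩ with hi₀
    -- it suffices to add one gate
    suffices H : ∃ p, NProg (Inp (Edge n ⊕ Edge n)) (p :: l) 0 ∧
        (∀ X, p (lits X) ↔ val C (ofSet X) i₀) by
      obtain ⟨p, k1, k2⟩ := H
      refine ⟨p :: l, k1, by simp only [List.length_cons]; omega, ?_⟩
      intro i hi
      rcases Nat.lt_or_ge i.1 m with h | h
      · obtain ⟨p', e1, e2⟩ := g3 i h
        exact ⟨p', List.mem_cons_of_mem _ e1, e2⟩
      · have : i = i₀ := Fin.ext (by rw [hi₀]; show i.1 = m; omega)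
        rw [this]
        exact ⟨p, List.mem_cons_self, k2⟩
    have g4 : ∀ j : Fin s, j ∈ C.ins i₀ → j.1 < m := fun j hj => C.ins_lt i₀ j hj
    choose! P hP using fun j (hj : j ∈ C.ins i₀) => g3 j (g4 j hj)
    -- constants
    have const : (∀ G H, val C G i₀ ↔ val C H i₀) → ∃ p,
        NProg (Inp (Edge n ⊕ Edge n)) (p :: l) 0 ∧
        (∀ X, p (lits X) ↔ val C (ofSet X) i₀) := by
      intro h
      by_cases h0 : val C ⊥ i₀
      · refine ⟨_, NProg.and ∅ (by simp) g1, fun X => ?_⟩
        simp [(h (ofSet X) ⊥).2 h0]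
      · have h0' : ∀ X, ¬ val C (ofSet X) i₀ := fun X hX => h0 ((h (ofSet X) ⊥).1 hX)
        refine ⟨_, NProg.or ∅ (by simp) g1, fun X => ?_⟩
        simp [h0' X]
    by_cases hl : i₀ ∈ C.leaf
    · have hv := val_leaf C hl
      have hiff : ∀ G H : SimpleGraph (Fin n),
          (∀ e ∈ C.reads i₀, e ∈ G.edgeSet ↔ e ∈ H.edgeSet) → (val C G i₀ ↔ val C H i₀) := by
        intro G H h
        rw [hv, hv]
        exact ⟨C.test_of_eq i₀ G H h, C.test_of_eq i₀ H G fun e he => (h e he).symm⟩
      rcases Nat.eq_zero_or_pos (C.reads i₀).card with h0 | h0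
      · apply const
        intro G H
        apply hiff
        intro e he
        rw [Finset.card_eq_zero.1 h0] at he
        exact absurd he (Finset.notMem_empty _)
      · obtain ⟨e, he⟩ : ∃ e, C.reads i₀ = {e} := Finset.card_eq_one.1 (by
          have := h1 i₀ hl
          omega)
        rw [he] at hiff
        have hiff' : ∀ G H : SimpleGraph (Fin n), (e ∈ G.edgeSet ↔ e ∈ H.edgeSet) →
            (val C G i₀ ↔ val C H i₀) := by
          intro G H h
          apply hiff
          intro e' he'
          rw [Finset.mem_singleton.1 he']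
          exact h
        by_cases hd : e.IsDiag
        · apply const
          intro G H
          apply hiff'
          constructor
          · intro h
            exact absurd hd (SimpleGraph.not_isDiag_of_mem_edgeSet _ h)
          · intro h
            exact absurd hd (SimpleGraph.not_isDiag_of_mem_edgeSet _ h)
        · have hmem : ∀ X : Finset (Edge n), e ∈ (ofSet X).edgeSet ↔ (⟨e, hd⟩ : Edge n) ∈ X := by
            intro X
            induction e using Sym2.ind with
            | _ u v =>
              rw [SimpleGraph.mem_edgeSet]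
              exact ofSet_adj hd
          by_cases ht : ∃ G, e ∈ G.edgeSet ∧ val C G i₀
          · by_cases ht' : ∃ G, e ∉ G.edgeSet ∧ val C G i₀
            · apply const
              have hall : ∀ G, val C G i₀ := by
                intro G
                obtain ⟨G1, a1, a2⟩ := ht
                obtain ⟨G2, b1, b2⟩ := ht'
                by_cases hG : e ∈ G.edgeSet
                · exact (hiff' G G1 (iff_of_true hG a1)).2 a2
                · exact (hiff' G G2 (iff_of_false hG b1)).2 b2
              exact fun G H => iff_of_true (hall G) (hall H)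
            · refine ⟨fun Y => Sum.inl ⟨e, hd⟩ ∈ Y, NProg.base ⟨_, rfl⟩ g1, fun X => ?_⟩
              show Sum.inl _ ∈ lits X ↔ _
              rw [mem_lits_inl, ← hmem]
              obtain ⟨G1, a1, a2⟩ := ht
              constructor
              · intro h
                exact (hiff' _ G1 (iff_of_true h a1)).2 a2
              · intro h
                by_contra hcon
                exact ht' ⟨_, hcon, h⟩
          · by_cases ht' : ∃ G, e ∉ G.edgeSet ∧ val C G i₀
            · refine ⟨fun Y => Sum.inr ⟨e, hd⟩ ∈ Y, NProg.base ⟨_, rfl⟩ g1, fun X => ?_⟩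
              show Sum.inr _ ∈ lits X ↔ _
              rw [mem_lits_inr, ← hmem]
              obtain ⟨G1, a1, a2⟩ := ht'
              constructor
              · intro h
                exact (hiff' _ G1 (iff_of_false h a1)).2 a2
              · intro h hcon
                exact ht ⟨_, hcon, h⟩
            · apply const
              have hall : ∀ G, ¬ val C G i₀ := by
                intro G hG
                by_cases hG' : e ∈ G.edgeSet
                · exact ht ⟨G, hG', hG⟩
                · exact ht' ⟨G, hG', hG⟩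
              exact fun G H => iff_of_false (hall G) (hall H)
    · by_cases hc : i₀ ∈ C.conj
      · refine ⟨_, NProg.and {f | ∃ j ∈ C.ins i₀, f = P j} ?_ g1, fun X => ?_⟩
        · rintro f ⟨j, hj, rfl⟩
          exact (hP j hj).1
        · rw [val_conj C hl hc]
          constructor
          · intro h j hj
            exact ((hP j hj).2 X).1 (h _ ⟨j, hj, rfl⟩)
          · rintro h f ⟨j, hj, rfl⟩
            exact ((hP j hj).2 X).2 (h j hj)
      · refine ⟨_, NProg.or {f | ∃ j ∈ C.ins i₀, f = P j} ?_ g1, fun X => ?_⟩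
        · rintro f ⟨j, hj, rfl⟩
          exact (hP j hj).1
        · rw [val_disj C hl hc]
          constructor
          · rintro ⟨f, ⟨j, hj, rfl⟩, h⟩
            exact ⟨j, hj, ((hP j hj).2 X).1 h⟩
          · rintro ⟨j, hj, h⟩
            exact ⟨_, ⟨j, hj, rfl⟩, ((hP j hj).2 X).2 h⟩

/-- A circuit without special gates, as a circuit with tests of single edges. -/
theorem ofPlain (C : Pool.Agent.H25.NP.Circuit n s) (hC : C.special = ∅) :
    ∃ C' : Circuit n s, ∀ (i : Fin s) (G : SimpleGraph (Fin n)),
      (C.fn i G → C'.Proof G ∅ i) ∧ (C'.Proof G Finset.univ i → C.fn i G) := by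
  classical
  let lf : Finset (Fin s) := Finset.univ.filter fun i => ∃ u v, ∀ G, C.fn i G ↔ G.Adj u v
  let cj : Finset (Fin s) := Finset.univ.filter fun i => ∀ G, C.fn i G ↔ ∀ j ∈ C.ins i, C.fn j G
  have hlf : ∀ {i}, i ∈ lf ↔ ∃ u v, ∀ G, C.fn i G ↔ G.Adj u v := fun {i} => by simp [lf]
  have hcj : ∀ {i}, i ∈ cj ↔ ∀ G, C.fn i G ↔ ∀ j ∈ C.ins i, C.fn j G := fun {i} => by simp [cj]
  let rd : Fin s → Finset (Sym2 (Fin n)) := fun i =>
    if h : ∃ u v, ∀ G, C.fn i G ↔ G.Adj u v then {s(h.choose, h.choose_spec.choose)} else univ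
  have hrd : ∀ i ∈ lf, ∃ e, rd i = {e} ∧ ∀ G, C.fn i G ↔ e ∈ G.edgeSet := by
    intro i hi
    have h := hlf.1 hi
    refine ⟨s(h.choose, h.choose_spec.choose), ?_, fun G => ?_⟩
    · show (if h : ∃ u v, ∀ G, C.fn i G ↔ G.Adj u v then
        ({s(h.choose, h.choose_spec.choose)} : Finset (Sym2 (Fin n))) else univ) = _
      rw [dif_pos h]
    · rw [SimpleGraph.mem_edgeSet]
      exact h.choose_spec.choose_spec G
  let C' : Circuit n s :=
    { leaf := lf
      conj := cj
      reads := rd
      test := C.fn
      ins := C.ins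
      test_of_eq := by
        intro i G H h hG
        by_cases hi : i ∈ lf
        · obtain ⟨e, h1, h2⟩ := hrd i hi
          rw [h2] at hG ⊢
          rw [h1] at h
          exact (h e (Finset.mem_singleton_self _)).1 hG
        · have h1 : rd i = univ := by
            show (if h : ∃ u v, ∀ G, C.fn i G ↔ G.Adj u v then
              ({s(h.choose, h.choose_spec.choose)} : Finset (Sym2 (Fin n))) else univ) = _
            rw [dif_neg fun h' => hi (hlf.2 h')]
          have h2 : G = H := by
            rw [← SimpleGraph.edgeSet_inj]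
            ext e
            exact h e (by rw [h1]; exact Finset.mem_univ _)
          rw [← h2]
          exact hG
      ins_lt := C.lt }
  have hor : ∀ {i}, i ∉ lf → i ∉ cj → ∀ G, C.fn i G ↔ ∃ j ∈ C.ins i, C.fn j G := by
    intro i h1 h2
    rcases C.gate i with h | h | h | h
    · exact absurd (hlf.2 h) h1
    · exact absurd (hcj.2 h) h2
    · exact h
    · exact absurd h.1 (by rw [hC]; exact Finset.notMem_empty _)
  refine ⟨C', ?_⟩
  suffices H : ∀ m : ℕ, ∀ (i : Fin s), i.1 < m → ∀ G : SimpleGraph (Fin n),
      (C.fn i G → C'.Proof G ∅ i) ∧ (C'.Proof G Finset.univ i → C.fn i G) by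
    exact fun i G => H s i i.2 G
  intro m
  induction m with
  | zero =>
    intro i hi
    omega
  | succ m ih =>
    intro i hi G
    have ih' : ∀ j ∈ C.ins i, (C.fn j G → C'.Proof G ∅ j) ∧
        (C'.Proof G Finset.univ j → C.fn j G) := by
      intro j hj
      have h1 : j.1 < i.1 := C.lt i j hj
      exact ih j (by omega) G
    constructor
    · intro h
      by_cases h1 : i ∈ lf
      · obtain ⟨e, h2, h3⟩ := hrd i h1
        refine Circuit.Proof.leaf h1 h ?_
        intro e' he'
        have he'' : e' ∈ rd i := he'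
        rw [h2, Finset.mem_singleton] at he''
        rw [he'']
        exact Or.inl ((h3 G).1 h)
      · by_cases h2 : i ∈ cj
        · exact Circuit.Proof.conj h1 h2 fun j hj => (ih' j hj).1 ((hcj.1 h2 G).1 h j hj)
        · obtain ⟨j, hj, h3⟩ := (hor h1 h2 G).1 h
          exact Circuit.Proof.disj h1 h2 hj ((ih' j hj).1 h3)
    · intro h
      cases h with
      | leaf _ h2 _ => exact h2
      | conj h1 h2 h3 => exact (hcj.1 h2 G).2 fun j hj => (ih' j hj).2 (h3 j hj)
      | disj h1 h2 h3 h4 => exact (hor h1 h2 G).2 ⟨_, h3, (ih' _ h3).2 h4⟩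

/-- On a window of `D` slices circuits for monotone graph properties can be made monotone. -/
theorem window (C : Circuit n s) (h1 : ∀ i ∈ C.leaf, (C.reads i).card ≤ 1) (out : Fin s)
    {f : SimpleGraph (Fin n) → Prop} (hf : ∀ G H, G ≤ H → f G → f H) (a D : ℕ)
    (hD : 1 ≤ D)
    (hC : ∀ G : SimpleGraph (Fin n), a ≤ G.edgeSet.ncard → G.edgeSet.ncard < a + D →
      (C.Proof G Finset.univ out ↔ f G)) :
    ∃ (s' : ℕ) (C' : Circuit n s') (out' : Fin s'),
      s' ≤ 6 * D * (s + 1) * (n.choose 2 + 1) ^ (D + 2) ∧
      ∀ G : SimpleGraph (Fin n), a ≤ G.edgeSet.ncard → G.edgeSet.ncard < a + D →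
        (f G → C'.Proof G ∅ out') ∧ (C'.Proof G Finset.univ out' → f G) := by
  classical
  obtain ⟨l, g1, g2, g3⟩ := toProg C h1 s le_rfl
  obtain ⟨c, hc1, hc2⟩ := g3 out out.2
  have hcm : ∀ Y Y', Y ⊆ Y' → c Y → c Y' := fun Y Y' hY =>
    g1.mono rfl (by
      rintro g ⟨k, rfl⟩ x y hxy hx
      exact hxy hx) c hc1 Y Y' hY
  have hcomp : Comp (Inp (Edge n ⊕ Edge n)) {c} s 0 := by
    refine ⟨l, g1, ?_, g2⟩
    rintro f' hf'
    rw [Set.mem_singleton_iff] at hf'
    rw [hf']
    exact hc1
  -- the number of edges
  have hcard : ∀ X : Finset (Edge n), (ofSet X).edgeSet.ncard = X.card := by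
    intro X
    have h2 : (ofSet X).edgeSet = Subtype.val '' (X : Set (Edge n)) := by
      ext e
      constructor
      · intro he
        have hd : ¬ e.IsDiag := SimpleGraph.not_isDiag_of_mem_edgeSet _ he
        induction e using Sym2.ind with
        | _ u v =>
          rw [SimpleGraph.mem_edgeSet, ofSet_adj hd] at he
          exact ⟨_, Finset.mem_coe.2 he, rfl⟩
      · rintro ⟨⟨e, hd⟩, he, rfl⟩
        induction e using Sym2.ind with
        | _ u v =>
          show s(u, v) ∈ _
          rw [SimpleGraph.mem_edgeSet, ofSet_adj hd]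
          exact Finset.mem_coe.1 he
    rw [h2, Set.ncard_image_of_injective _ Subtype.val_injective, Set.ncard_coe_finset]
  have hspec := (win_spec' hcm (f := fun X => f (ofSet X))
    (fun X Y hXY => hf _ _ (ofSet_mono hXY)) a D (by
      intro X hX1 hX2
      rw [hc2]
      exact hC _ (by rw [hcard]; exact hX1) (by rw [hcard]; exact hX2))) D le_rfl ∅
  -- the program
  have k1 := comp_thr (ι := Edge n) D
  have k2 := comp_windows hcomp {a} D
    (K := K₀ (Edge n) ∪ {g | ∃ S a, S.card ≤ D ∧ g = thr S a}) Set.subset_union_left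
    (fun S b hS => Or.inr ⟨S, b, hS, rfl⟩) k1 D le_rfl
  obtain ⟨l', m1, m2, m3⟩ := k2
  have m4 : win c D a ∅ ∈ l' := m2 _ (Or.inr ⟨a, Finset.mem_singleton_self _, ∅, by simp, rfl⟩)
  have k4 := m1.comap (Base' := Adj n) (toSet (n := n)) (by
    rintro g ⟨i, rfl⟩
    obtain ⟨e, he⟩ := i
    induction e using Sym2.ind with
    | _ u v =>
      refine ⟨u, v, ?_⟩
      funext G
      show (_ ∈ toSet G) = _
      rw [mem_toSet]
      rfl)
  obtain ⟨C₁, q1, _, q3⟩ := k4.toCircuit
  obtain ⟨out', hout⟩ := q3 _ (List.mem_map_of_mem (f := fun g => fun x => g (toSet x)) m4)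
  obtain ⟨C', hC'⟩ := ofPlain C₁ (Finset.card_eq_zero.1 (by omega))
  refine ⟨_, C', out', ?_, ?_⟩
  · rw [List.length_map]
    refine m3.trans ?_
    rw [card_Edge, Finset.card_singleton]
    set N := n.choose 2 with hN
    set P := (N + 1) ^ (D + 2) with hP
    have e1 : (N + 1) ^ D ≤ P := Nat.pow_le_pow_right (Nat.succ_pos _) (by omega)
    have e2 : N + 1 ≤ P := by
      calc N + 1 = (N + 1) ^ 1 := (pow_one _).symm
        _ ≤ (N + 1) ^ (D + 2) := Nat.pow_le_pow_right (Nat.succ_pos _) (by omega)
    have e3 : D * (1 * (N + 1) ^ D * (s + 2)) ≤ D * (P * (s + 2)) :=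
      Nat.mul_le_mul_left _ (Nat.mul_le_mul_right _ (by omega))
    have e4 : P ≤ D * P := Nat.le_mul_of_pos_left _ (by omega)
    calc N + 2 + 2 * P + D * (1 * (N + 1) ^ D * (s + 2))
        ≤ (P + P) + 2 * P + D * (P * (s + 2)) := by omega
      _ = 4 * P + D * (P * (s + 2)) := by ring
      _ ≤ 4 * (D * P) + D * (P * (s + 2)) := by omega
      _ = (s + 6) * (D * P) := by ring
      _ ≤ (6 * (s + 1)) * (D * P) := Nat.mul_le_mul_right _ (by omega)
      _ = 6 * D * (s + 1) * P := by ring
  · intro G hG1 hG2
    have e1 : (toSet G \ ∅).card = G.edgeSet.ncard := by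
      rw [Finset.sdiff_empty, ← hcard, ofSet_toSet]
    obtain ⟨_, _, h5⟩ := hspec (toSet G)
    have h6 := h5 (by rw [e1]; exact hG1) (by rw [e1]; exact hG2)
    rw [Finset.sdiff_empty, ofSet_toSet] at h6
    have h7 : C₁.fn out' G ↔ f G := by
      rw [hout]
      exact h6
    exact ⟨fun h => (hC' out' G).1 (h7.2 h), fun h => h7.1 ((hC' out' G).2 h)⟩

end Pool.Agent.H78.WS
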