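import Pool.Agent.H78.WS.Win
import Pool.Agent.H29.NW.SCircuit

/-!
General circuits on `D` consecutive slices can be made monotone: version for sets.
-/

set_option linter.unusedSectionVars false

namespace Pool.Agent.H78.WS.S

open Finset
open Pool.Agent.H25.NP hiding Circuit
open Pool.Agent.H29.NW.SC (Circuit)

variable {Y : Type} [Fintype Y] [DecidableEq Y] {s : ℕ}

/-- The value of a gate. -/
def val (C : Circuit Y s) (F : Finset Y) (i : Fin s) : Prop :=
  C.Proof F Finset.univ i

theorem val_leaf (C : Circuit Y s) {i : Fin s} (hi : i ∈ C.leaf) (F : Finset Y) :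
    val C F i ↔ C.test i F :=
  (Circuit.proof_leaf hi).trans ⟨fun h => h.1, fun h => ⟨h, fun e _ => Or.inr (Finset.mem_univ e)⟩⟩

/-- Circuits whose tests read at most one element are programs over the literals. -/
theorem toProg (C : Circuit Y s) (h1 : ∀ i ∈ C.leaf, (C.reads i).card ≤ 1) :
    ∀ m ≤ s, ∃ l, NProg (Inp (Y ⊕ Y)) l 0 ∧ l.length ≤ m ∧
      ∀ i : Fin s, i.1 < m → ∃ p ∈ l, ∀ X, p (lits X) ↔ val C X i := by
  classical
  intro m
  induction m with
  | zero =>
    intro _
    exact ⟨[], NProg.nil, by simp, fun i hi => absurd hi (Nat.not_lt_zero _)⟩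
  | succ m ih =>
    intro hm
    obtain ⟨l, g1, g2, g3⟩ := ih (by omega)
    set i₀ : Fin s := ⟨m, by omega⟩ with hi₀
    -- it suffices to add one gate
    suffices H : ∃ p, NProg (Inp (Y ⊕ Y)) (p :: l) 0 ∧
        (∀ X, p (lits X) ↔ val C X i₀) by
      obtain ⟨p, k1, k2⟩ := H
      refine ⟨p :: l, k1, by simp only [List.length_cons]; omega, ?_⟩
      intro i hi
      rcases Nat.lt_or_ge i.1 m with h | h
      · obtain ⟨p', e1, e2⟩ := g3 i h
        exact ⟨p', List.mem_cons_of_mem _ e1, e2⟩
      · have : i = i₀ := Fin.ext (by rw [hi₀]; show i.1 = m; omega)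
        rw [this]
        exact ⟨p, List.mem_cons_self, k2⟩
    have g4 : ∀ j : Fin s, j ∈ C.ins i₀ → j.1 < m := fun j hj => C.ins_lt i₀ j hj
    choose! P hP using fun j (hj : j ∈ C.ins i₀) => g3 j (g4 j hj)
    -- constants
    have const : (∀ G H, val C G i₀ ↔ val C H i₀) → ∃ p,
        NProg (Inp (Y ⊕ Y)) (p :: l) 0 ∧
        (∀ X, p (lits X) ↔ val C X i₀) := by
      intro h
      by_cases h0 : val C ∅ i₀
      · refine ⟨_, NProg.and ∅ (by simp) g1, fun X => ?_⟩
        simp [(h X ∅).2 h0]
      · have h0' : ∀ X, ¬ val C X i₀ := fun X hX => h0 ((h X ∅).1 hX)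
        refine ⟨_, NProg.or ∅ (by simp) g1, fun X => ?_⟩
        simp [h0' X]
    by_cases hl : i₀ ∈ C.leaf
    · have hv := val_leaf C hl
      have hiff : ∀ G H : Finset Y,
          (∀ e ∈ C.reads i₀, e ∈ G ↔ e ∈ H) → (val C G i₀ ↔ val C H i₀) := by
        intro G H h
        rw [hv, hv]
        exact ⟨C.test_of_eq i₀ G H h, C.test_of_eq i₀ H G fun e he => (h e he).symm⟩
      rcases Nat.eq_zero_or_pos (C.reads i₀).card with h0 | h0
      · apply const
        intro G H
        apply hiff
        intro e he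
        rw [Finset.card_eq_zero.1 h0] at he
        exact absurd he (Finset.notMem_empty _)
      · obtain ⟨e, he⟩ : ∃ e, C.reads i₀ = {e} := Finset.card_eq_one.1 (by
          have := h1 i₀ hl
          omega)
        rw [he] at hiff
        have hiff' : ∀ G H : Finset Y, (e ∈ G ↔ e ∈ H) →
            (val C G i₀ ↔ val C H i₀) := by
          intro G H h
          apply hiff
          intro e' he'
          rw [Finset.mem_singleton.1 he']
          exact h
        by_cases ht : ∃ G : Finset Y, e ∈ G ∧ val C G i₀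
        · by_cases ht' : ∃ G : Finset Y, e ∉ G ∧ val C G i₀
          · apply const
            have hall : ∀ G, val C G i₀ := by
              intro G
              obtain ⟨G1, a1, a2⟩ := ht
              obtain ⟨G2, b1, b2⟩ := ht'
              by_cases hG : e ∈ G
              · exact (hiff' G G1 (iff_of_true hG a1)).2 a2
              · exact (hiff' G G2 (iff_of_false hG b1)).2 b2
            exact fun G H => iff_of_true (hall G) (hall H)
          · refine ⟨fun Z => Sum.inl e ∈ Z, NProg.base ⟨_, rfl⟩ g1, fun X => ?_⟩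
            show Sum.inl _ ∈ lits X ↔ _
            rw [mem_lits_inl]
            obtain ⟨G1, a1, a2⟩ := ht
            constructor
            · intro h
              exact (hiff' _ G1 (iff_of_true h a1)).2 a2
            · intro h
              by_contra hcon
              exact ht' ⟨_, hcon, h⟩
        · by_cases ht' : ∃ G : Finset Y, e ∉ G ∧ val C G i₀
          · refine ⟨fun Z => Sum.inr e ∈ Z, NProg.base ⟨_, rfl⟩ g1, fun X => ?_⟩
            show Sum.inr _ ∈ lits X ↔ _
            rw [mem_lits_inr]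
            obtain ⟨G1, a1, a2⟩ := ht'
            constructor
            · intro h
              exact (hiff' _ G1 (iff_of_false h a1)).2 a2
            · intro h hcon
              exact ht ⟨_, hcon, h⟩
          · apply const
            have hall : ∀ G, ¬ val C G i₀ := by
              intro G hG
              by_cases hG' : e ∈ G
              · exact ht ⟨G, hG', hG⟩
              · exact ht' ⟨G, hG', hG⟩
            exact fun G H => iff_of_false (hall G) (hall H)
    · by_cases hc : i₀ ∈ C.conj
      · refine ⟨_, NProg.and {f | ∃ j ∈ C.ins i₀, f = P j} ?_ g1, fun X => ?_⟩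
        · rintro f ⟨j, hj, rfl⟩
          exact (hP j hj).1
        · rw [val, Circuit.proof_conj hl hc]
          constructor
          · intro h j hj
            exact ((hP j hj).2 X).1 (h _ ⟨j, hj, rfl⟩)
          · rintro h f ⟨j, hj, rfl⟩
            exact ((hP j hj).2 X).2 (h j hj)
      · refine ⟨_, NProg.or {f | ∃ j ∈ C.ins i₀, f = P j} ?_ g1, fun X => ?_⟩
        · rintro f ⟨j, hj, rfl⟩
          exact (hP j hj).1
        · rw [val, Circuit.proof_disj hl hc]
          constructor
          · rintro ⟨f, ⟨j, hj, rfl⟩, h⟩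
            exact ⟨j, hj, ((hP j hj).2 X).1 h⟩
          · rintro ⟨j, hj, h⟩
            exact ⟨_, ⟨j, hj, rfl⟩, ((hP j hj).2 X).2 h⟩

/-- Programs without negations are circuits whose tests ask whether an element belongs to the
input set. -/
theorem ofProg {l : List (Finset Y → Prop)} {r : ℕ} (h : NProg (Inp Y) l r) (hr : r = 0) :
    ∃ C : Circuit Y l.length, ∀ f ∈ l, ∃ i, ∀ F : Finset Y,
      (f F → C.Proof F ∅ i) ∧ (C.Proof F Finset.univ i → f F) := by
  classical
  -- one more gate
  have ext : ∀ {s : ℕ} (C : Circuit Y s) (lf cj : Bool) (rd : Finset Y) (t : Finset Y → Prop)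
      (I : Finset (Fin s)), (∀ F F' : Finset Y, (∀ e ∈ rd, e ∈ F ↔ e ∈ F') → t F → t F') →
      ∃ C' : Circuit Y (s + 1),
        (∀ i F N, C'.Proof F N (Fin.castSucc i) ↔ C.Proof F N i) ∧
        (Fin.last s ∈ C'.leaf ↔ lf = true) ∧ (Fin.last s ∈ C'.conj ↔ cj = true) ∧
        C'.reads (Fin.last s) = rd ∧ C'.test (Fin.last s) = t ∧
        C'.ins (Fin.last s) = I.map Fin.castSuccEmb := by
    intro s C lf cj rd t I ht
    let C' : Circuit Y (s + 1) :=
      { leaf := C.leaf.map Fin.castSuccEmb ∪ (if lf = true then {Fin.last s} else ∅)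
        conj := C.conj.map Fin.castSuccEmb ∪ (if cj = true then {Fin.last s} else ∅)
        reads := Fin.snoc (α := fun _ => Finset Y) C.reads rd
        test := Fin.snoc (α := fun _ => Finset Y → Prop) C.test t
        ins := Fin.snoc (α := fun _ => Finset (Fin (s + 1)))
          (fun i => (C.ins i).map Fin.castSuccEmb) (I.map Fin.castSuccEmb)
        test_of_eq := by
          intro i
          refine Fin.lastCases ?_ (fun i => ?_) i
          · intro F F' h
            rw [Fin.snoc_last] at h ⊢
            exact ht F F' h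
          · intro F F' h
            rw [Fin.snoc_castSucc] at h ⊢
            exact C.test_of_eq i F F' h
        ins_lt := by
          intro i
          refine Fin.lastCases ?_ (fun i => ?_) i
          · intro j hj
            rw [Fin.snoc_last, Finset.mem_map] at hj
            obtain ⟨j', _, rfl⟩ := hj
            exact Fin.castSucc_lt_last j'
          · intro j hj
            rw [Fin.snoc_castSucc, Finset.mem_map] at hj
            obtain ⟨j', hj', rfl⟩ := hj
            exact Fin.castSucc_lt_castSucc_iff.2 (C.ins_lt i j' hj') }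
    have hmem : ∀ (A : Finset (Fin s)) (b : Bool) (i : Fin s),
        Fin.castSucc i ∈ A.map Fin.castSuccEmb ∪ (if b = true then {Fin.last s} else ∅) ↔
          i ∈ A := by
      intro A b i
      rw [Finset.mem_union]
      constructor
      · rintro (h | h)
        · obtain ⟨j, hj, hji⟩ := Finset.mem_map.1 h
          rw [← Fin.castSucc_injective s hji]
          exact hj
        · split_ifs at h
          · exact absurd (Finset.mem_singleton.1 h) (Fin.castSucc_lt_last i).ne
          · exact absurd h (Finset.notMem_empty _)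
      · intro h
        exact Or.inl (Finset.mem_map_of_mem Fin.castSuccEmb h)
    have hlast : ∀ (A : Finset (Fin s)) (b : Bool),
        Fin.last s ∈ A.map Fin.castSuccEmb ∪ (if b = true then {Fin.last s} else ∅) ↔
          b = true := by
      intro A b
      rw [Finset.mem_union]
      constructor
      · rintro (h | h)
        · obtain ⟨j, _, hji⟩ := Finset.mem_map.1 h
          exact absurd hji (Fin.castSucc_lt_last j).ne
        · by_contra hb
          rw [if_neg hb] at h
          exact absurd h (Finset.notMem_empty _)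
      · intro h
        rw [if_pos h]
        exact Or.inr (Finset.mem_singleton_self _)
    have e1 : ∀ i, Fin.castSucc i ∈ C'.leaf ↔ i ∈ C.leaf := fun i => hmem C.leaf lf i
    have e2 : ∀ i, Fin.castSucc i ∈ C'.conj ↔ i ∈ C.conj := fun i => hmem C.conj cj i
    have e3 : ∀ i, C'.reads (Fin.castSucc i) = C.reads i := fun i =>
      Fin.snoc_castSucc (α := fun _ => Finset Y) rd C.reads i
    have e4 : ∀ i, C'.test (Fin.castSucc i) = C.test i := fun i =>
      Fin.snoc_castSucc (α := fun _ => Finset Y → Prop) t C.test i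
    have e5 : ∀ i, C'.ins (Fin.castSucc i) = (C.ins i).map Fin.castSuccEmb := fun i =>
      Fin.snoc_castSucc (α := fun _ => Finset (Fin (s + 1))) (I.map Fin.castSuccEmb)
        (fun i => (C.ins i).map Fin.castSuccEmb) i
    refine ⟨C', ?_, hlast C.leaf lf, hlast C.conj cj,
      Fin.snoc_last (α := fun _ => Finset Y) rd C.reads,
      Fin.snoc_last (α := fun _ => Finset Y → Prop) t C.test,
      Fin.snoc_last (α := fun _ => Finset (Fin (s + 1))) (I.map Fin.castSuccEmb)
        (fun i => (C.ins i).map Fin.castSuccEmb)⟩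
    suffices H : ∀ m : ℕ, ∀ i : Fin s, i.1 < m → ∀ F N,
        (C'.Proof F N (Fin.castSucc i) ↔ C.Proof F N i) by
      exact fun i F N => H s i i.2 F N
    intro m
    induction m with
    | zero =>
      intro i hi
      omega
    | succ m ih =>
      intro i hi F N
      have ih' : ∀ j ∈ C.ins i, (C'.Proof F N (Fin.castSucc j) ↔ C.Proof F N j) := by
        intro j hj
        have h1 : j.1 < i.1 := C.ins_lt i j hj
        exact ih j (by omega) F N
      by_cases h1 : i ∈ C.leaf
      · rw [Circuit.proof_leaf h1, Circuit.proof_leaf ((e1 i).2 h1), e3, e4]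
      · by_cases h2 : i ∈ C.conj
        · rw [Circuit.proof_conj h1 h2,
            Circuit.proof_conj (fun h => h1 ((e1 i).1 h)) ((e2 i).2 h2), e5]
          constructor
          · intro h j hj
            exact (ih' j hj).1 (h _ (Finset.mem_map_of_mem Fin.castSuccEmb hj))
          · intro h j hj
            obtain ⟨j', hj', rfl⟩ := Finset.mem_map.1 hj
            exact (ih' j' hj').2 (h j' hj')
        · rw [Circuit.proof_disj h1 h2,
            Circuit.proof_disj (fun h => h1 ((e1 i).1 h)) (fun h => h2 ((e2 i).1 h)), e5]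
          constructor
          · rintro ⟨j, hj, h⟩
            obtain ⟨j', hj', rfl⟩ := Finset.mem_map.1 hj
            exact ⟨j', hj', (ih' j' hj').1 h⟩
          · rintro ⟨j, hj, h⟩
            exact ⟨_, Finset.mem_map_of_mem Fin.castSuccEmb hj, (ih' j hj).2 h⟩
  induction h with
  | nil =>
    exact ⟨⟨∅, ∅, fun _ => ∅, fun _ _ => True, fun _ => ∅, fun _ _ _ _ h => h,
      fun i => i.elim0⟩, fun f hf => absurd hf List.not_mem_nil⟩
  | @base l r g hg _ ih =>
    obtain ⟨C, h3⟩ := ih hr
    obtain ⟨y, rfl⟩ := hg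
    obtain ⟨C', k1, k2, _, k4, k5, _⟩ := ext C true false {y} (fun F => y ∈ F) ∅
      (fun F F' h hy => (h y (Finset.mem_singleton_self y)).1 hy)
    refine ⟨C', ?_⟩
    intro f hf
    rcases List.mem_cons.1 hf with rfl | hf
    · refine ⟨Fin.last _, fun F => ?_⟩
      rw [Circuit.proof_leaf (k2.2 rfl), Circuit.proof_leaf (k2.2 rfl), k4, k5]
      refine ⟨fun h => ⟨h, fun e he => ?_⟩, fun h => h.1⟩
      rw [Finset.mem_singleton.1 he]
      exact Or.inl h
    · obtain ⟨i, hi⟩ := h3 f hf
      refine ⟨Fin.castSucc i, fun F => ?_⟩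
      rw [k1, k1]
      exact hi F
  | @and l r S hS _ ih =>
    obtain ⟨C, h3⟩ := ih hr
    choose J hJ using h3
    obtain ⟨C', k1, k2, k3, _, _, k6⟩ := ext C false true ∅ (fun _ => True)
      (univ.filter fun i => ∃ (f : Finset Y → Prop) (hf : f ∈ S), J f (hS f hf) = i) (fun _ _ _ h => h)
    have k2' : Fin.last _ ∉ C'.leaf := fun h => absurd (k2.1 h) (by simp)
    refine ⟨C', ?_⟩
    intro f hf
    rcases List.mem_cons.1 hf with rfl | hf
    · refine ⟨Fin.last _, fun F => ?_⟩
      rw [Circuit.proof_conj k2' (k3.2 rfl), Circuit.proof_conj k2' (k3.2 rfl), k6]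
      constructor
      · intro h j hj
        obtain ⟨j', hj', rfl⟩ := Finset.mem_map.1 hj
        obtain ⟨f', hf', rfl⟩ := (Finset.mem_filter.1 hj').2
        exact (k1 _ _ _).2 ((hJ f' (hS f' hf') F).1 (h f' hf'))
      · intro h f' hf'
        refine (hJ f' (hS f' hf') F).2 ((k1 _ _ _).1 (h _ (Finset.mem_map_of_mem _ ?_)))
        exact Finset.mem_filter.2 ⟨Finset.mem_univ _, f', hf', rfl⟩
    · refine ⟨Fin.castSucc (J f hf), fun F => ?_⟩
      rw [k1, k1]
      exact hJ f hf F
  | @or l r S hS _ ih =>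
    obtain ⟨C, h3⟩ := ih hr
    choose J hJ using h3
    obtain ⟨C', k1, k2, k3, _, _, k6⟩ := ext C false false ∅ (fun _ => True)
      (univ.filter fun i => ∃ (f : Finset Y → Prop) (hf : f ∈ S), J f (hS f hf) = i) (fun _ _ _ h => h)
    have k2' : Fin.last _ ∉ C'.leaf := fun h => absurd (k2.1 h) (by simp)
    have k3' : Fin.last _ ∉ C'.conj := fun h => absurd (k3.1 h) (by simp)
    refine ⟨C', ?_⟩
    intro f hf
    rcases List.mem_cons.1 hf with rfl | hf
    · refine ⟨Fin.last _, fun F => ?_⟩
      rw [Circuit.proof_disj k2' k3', Circuit.proof_disj k2' k3', k6]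
      constructor
      · rintro ⟨f', hf', h⟩
        refine ⟨_, Finset.mem_map_of_mem _ (Finset.mem_filter.2
          ⟨Finset.mem_univ _, f', hf', rfl⟩), (k1 _ _ _).2 ((hJ f' (hS f' hf') F).1 h)⟩
      · rintro ⟨j, hj, h⟩
        obtain ⟨j', hj', rfl⟩ := Finset.mem_map.1 hj
        obtain ⟨f', hf', rfl⟩ := (Finset.mem_filter.1 hj').2
        exact ⟨f', hf', (hJ f' (hS f' hf') F).2 ((k1 _ _ _).1 h)⟩
    · refine ⟨Fin.castSucc (J f hf), fun F => ?_⟩
      rw [k1, k1]
      exact hJ f hf F
  | not _ _ _ => exact absurd hr (Nat.succ_ne_zero _)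

/-- On a window of `D` slices circuits for monotone properties of sets can be made monotone. -/
theorem window (C : Circuit Y s) (h1 : ∀ i ∈ C.leaf, (C.reads i).card ≤ 1) (out : Fin s)
    {f : Finset Y → Prop} (hf : ∀ F F', F ⊆ F' → f F → f F') (a D : ℕ) (hD : 1 ≤ D)
    (hC : ∀ F : Finset Y, a ≤ F.card → F.card < a + D → (C.Proof F Finset.univ out ↔ f F)) :
    ∃ (s' : ℕ) (C' : Circuit Y s') (out' : Fin s'),
      s' ≤ 6 * D * (s + 1) * (Fintype.card Y + 1) ^ (D + 2) ∧
      ∀ F : Finset Y, a ≤ F.card → F.card < a + D →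
        (f F → C'.Proof F ∅ out') ∧ (C'.Proof F Finset.univ out' → f F) := by
  classical
  obtain ⟨l, g1, g2, g3⟩ := toProg C h1 s le_rfl
  obtain ⟨c, hc1, hc2⟩ := g3 out out.2
  have hcm : ∀ Z Z', Z ⊆ Z' → c Z → c Z' := fun Z Z' hZ =>
    g1.mono rfl (by
      rintro g ⟨k, rfl⟩ x y hxy hx
      exact hxy hx) c hc1 Z Z' hZ
  have hcomp : Comp (Inp (Y ⊕ Y)) {c} s 0 := by
    refine ⟨l, g1, ?_, g2⟩
    rintro f' hf'
    rw [Set.mem_singleton_iff] at hf'
    rw [hf']
    exact hc1
  have hspec := (win_spec' hcm hf a D (fun X hX1 hX2 => (hc2 X).trans (hC X hX1 hX2))) D le_rfl ∅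
  -- the program
  have k1 := comp_thr (ι := Y) D
  have k2 := comp_windows hcomp {a} D
    (K := K₀ Y ∪ {g | ∃ S a, S.card ≤ D ∧ g = thr S a}) Set.subset_union_left
    (fun S b hS => Or.inr ⟨S, b, hS, rfl⟩) k1 D le_rfl
  obtain ⟨l', m1, m2, m3⟩ := k2
  have m4 : win c D a ∅ ∈ l' := m2 _ (Or.inr ⟨a, Finset.mem_singleton_self _, ∅, by simp, rfl⟩)
  obtain ⟨C', hC'⟩ := ofProg m1 rfl
  obtain ⟨out', hout⟩ := hC' _ m4
  refine ⟨_, C', out', ?_, ?_⟩
  · refine m3.trans ?_
    rw [Finset.card_singleton]
    set N := Fintype.card Y with hN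
    set P := (N + 1) ^ (D + 2) with hP
    have e1 : (N + 1) ^ D ≤ P := Nat.pow_le_pow_right (Nat.succ_pos _) (by omega)
    have e2 : N + 1 ≤ P := by
      calc N + 1 = (N + 1) ^ 1 := (pow_one _).symm
        _ ≤ (N + 1) ^ (D + 2) := Nat.pow_le_pow_right (Nat.succ_pos _) (by omega)
    have e3 : D * (1 * (N + 1) ^ D * (s + 2)) ≤ D * (P * (s + 2)) :=
      Nat.mul_le_mul_left _ (Nat.mul_le_mul_right _ (by omega))
    have e4 : P ≤ D * P := Nat.le_mul_of_pos_left _ (by omega)
    calc N + 2 + 2 * P + D * (1 * (N + 1) ^ D * (s + 2))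
        ≤ (P + P) + 2 * P + D * (P * (s + 2)) := by omega
      _ = 4 * P + D * (P * (s + 2)) := by ring
      _ ≤ 4 * (D * P) + D * (P * (s + 2)) := by omega
      _ = (s + 6) * (D * P) := by ring
      _ ≤ (6 * (s + 1)) * (D * P) := Nat.mul_le_mul_right _ (by omega)
      _ = 6 * D * (s + 1) * P := by ring
  · intro F hF1 hF2
    have e1 : (F \ ∅).card = F.card := by rw [Finset.sdiff_empty]
    obtain ⟨_, _, h5⟩ := hspec F
    have h6 := h5 (by rw [e1]; exact hF1) (by rw [e1]; exact hF2)
    rw [Finset.sdiff_empty] at h6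
    exact ⟨fun h => (hout F).1 (h6.2 h), fun h => h6.1 ((hout F).2 h)⟩

end Pool.Agent.H78.WS.S
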